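import Pool.Agent.Lib.MP_abd978_an.UN.Interfaces
import Pool.Agent.Lib.MP_abd978_an.H58.Core

/-!
LSOB, LSOBL: Lipschitz functions are Sobolev functions (mollification, Rademacher's theorem).
-/

set_option autoImplicit false

open MeasureTheory Metric Set Filter Topology ContDiff
open scoped Gradient RealInnerProductSpace NNReal ENNReal Convolution Pointwise Manifold

namespace Pool.Agent.Lib.MP_abd978_an.UN.H82

variable {n : ℕ}

/-- the mollification -/
noncomputable def moll (ρ : ContDiffBump (0 : E n)) (φ : E n → ℝ) : E n → ℝ :=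
  (ρ.normed volume ⋆[ContinuousLinearMap.lsmul ℝ ℝ, volume] φ : E n → ℝ)

theorem ae_diff_sub {φ : E n → ℝ} {K : ℝ≥0} (hφ : LipschitzWith K φ) (x : E n) :
    ∀ᵐ t : E n, DifferentiableAt ℝ φ (x - t) := by
  have h := hφ.ae_differentiableAt (μ := (volume : Measure (E n)))
  exact (Measure.measurePreserving_sub_left volume x).quasiMeasurePreserving.ae h

theorem fderiv_bound {φ : E n → ℝ} {K : ℝ≥0} (hφ : LipschitzWith K φ) (x : E n) :
    ‖fderiv ℝ φ x‖ ≤ K := norm_fderiv_le_of_lipschitz ℝ hφ

theorem moll_hasFDerivAt (ρ : ContDiffBump (0 : E n)) {φ : E n → ℝ} {K : ℝ≥0}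
    (hφ : LipschitzWith K φ) (x : E n) :
    HasFDerivAt (moll ρ φ) (∫ t, ρ.normed volume t • fderiv ℝ φ (x - t)) x := by
  have hc : Continuous φ := hφ.continuous
  have hρc : Continuous (ρ.normed (volume : Measure (E n))) := ρ.continuous_normed
  have hρs : HasCompactSupport (ρ.normed (volume : Measure (E n))) := ρ.hasCompactSupport_normed
  have hρi : Integrable (ρ.normed (volume : Measure (E n))) :=
    hρc.integrable_of_hasCompactSupport hρs
  refine (hasFDerivAt_integral_of_dominated_loc_of_lip' (𝕜 := ℝ) (μ := volume)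
    (F := fun y t => ρ.normed volume t • φ (y - t))
    (F' := fun t => ρ.normed volume t • fderiv ℝ φ (x - t))
    (bound := fun t => |ρ.normed volume t| * K) (x₀ := x) (s := univ) univ_mem ?_ ?_ ?_ ?_ ?_
    ?_).2
  · intro y _
    exact (hρc.smul (hc.comp (continuous_const.sub continuous_id))).aestronglyMeasurable
  · refine Continuous.integrable_of_hasCompactSupport ?_ ?_
    · exact hρc.smul (hc.comp (continuous_const.sub continuous_id))
    · exact hρs.smul_right
  · refine (hρc.aestronglyMeasurable).smul ?_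
    exact ((measurable_fderiv ℝ φ).comp (measurable_const.sub measurable_id)).aestronglyMeasurable
  · refine Eventually.of_forall fun t y _ => ?_
    rw [← smul_sub, norm_smul, Real.norm_eq_abs, mul_assoc]
    refine mul_le_mul_of_nonneg_left ?_ (abs_nonneg _)
    have := hφ.norm_sub_le (y - t) (x - t)
    simpa using this
  · exact hρi.norm.mul_const _
  · filter_upwards [ae_diff_sub hφ x] with t ht
    have h1 : HasFDerivAt (fun y : E n => φ (y - t)) (fderiv ℝ φ (x - t)) x := by
      have h2 := (ht.hasFDerivAt).comp x ((hasFDerivAt_id x).sub_const t)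
      simpa [Function.comp_def] using h2
    exact h1.const_smul (ρ.normed volume t)

theorem moll_contDiff (ρ : ContDiffBump (0 : E n)) {φ : E n → ℝ} (hφ : Continuous φ) :
    ContDiff ℝ ∞ (moll ρ φ) :=
  HasCompactSupport.contDiff_convolution_left _ ρ.hasCompactSupport_normed
    ρ.contDiff_normed hφ.locallyIntegrable

theorem moll_dist (ρ : ContDiffBump (0 : E n)) {φ : E n → ℝ} {K : ℝ≥0}
    (hφ : LipschitzWith K φ) (x : E n) : |moll ρ φ x - φ x| ≤ K * ρ.rOut := by
  rw [← Real.dist_eq]
  refine ρ.dist_normed_convolution_le hφ.continuous.aestronglyMeasurable fun y hy => ?_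
  exact (hφ.dist_le_mul y x).trans (mul_le_mul_of_nonneg_left (mem_ball.1 hy).le K.2)

theorem moll_support (ρ : ContDiffBump (0 : E n)) {φ : E n → ℝ} (x : E n)
    (hx : x ∉ cthickening ρ.rOut (tsupport φ)) : moll ρ φ x = 0 := by
  by_contra h
  have h1 : x ∈ Function.support (moll ρ φ) := h
  have h2 := support_convolution_subset (ContinuousLinearMap.lsmul ℝ ℝ) h1
  obtain ⟨s, hs, t, ht, rfl⟩ := Set.mem_add.1 h2
  rw [ρ.support_normed_eq, mem_ball, dist_zero_right] at hs
  refine hx (mem_cthickening_of_dist_le (s + t) t _ _ (subset_tsupport _ ht) ?_)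
  rw [dist_eq_norm]
  simpa using hs.le

theorem moll_fderiv (ρ : ContDiffBump (0 : E n)) {φ : E n → ℝ} {K : ℝ≥0}
    (hφ : LipschitzWith K φ) (x : E n) :
    fderiv ℝ (moll ρ φ) x =
      (ρ.normed volume ⋆[ContinuousLinearMap.lsmul ℝ ℝ, volume] (fderiv ℝ φ)) x :=
  (moll_hasFDerivAt ρ hφ x).fderiv

theorem moll_fderiv_bound (ρ : ContDiffBump (0 : E n)) {φ : E n → ℝ} {K : ℝ≥0}
    (hφ : LipschitzWith K φ) (x : E n) : ‖fderiv ℝ (moll ρ φ) x‖ ≤ K := by
  rw [(moll_hasFDerivAt ρ hφ x).fderiv]
  have hρi : Integrable (ρ.normed (volume : Measure (E n))) :=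
    ρ.continuous_normed.integrable_of_hasCompactSupport ρ.hasCompactSupport_normed
  refine (norm_integral_le_integral_norm _).trans ?_
  have h1 : ∫ t, ‖ρ.normed volume t • fderiv ℝ φ (x - t)‖ ≤
      ∫ t, ρ.normed (volume : Measure (E n)) t * K := by
    refine integral_mono_of_nonneg (Eventually.of_forall fun t => norm_nonneg _)
      (hρi.mul_const _) (Eventually.of_forall fun t => ?_)
    show ‖ρ.normed volume t • fderiv ℝ φ (x - t)‖ ≤ ρ.normed (volume : Measure (E n)) t * K
    rw [norm_smul, Real.norm_eq_abs, abs_of_nonneg (ρ.nonneg_normed t)]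
    exact mul_le_mul_of_nonneg_left (fderiv_bound hφ _) (ρ.nonneg_normed t)
  refine h1.trans (le_of_eq ?_)
  rw [integral_mul_const, ρ.integral_normed, one_mul]

theorem grad_sub_norm (f g : E n → ℝ) (x : E n) :
    ‖∇ f x - ∇ g x‖ = ‖fderiv ℝ f x - fderiv ℝ g x‖ := by
  rw [grad_eq, grad_eq, ← map_sub]
  exact (InnerProductSpace.toDual ℝ (E n)).symm.norm_map _

theorem measurable_grad (f : E n → ℝ) : Measurable fun x => ∇ f x :=
  (InnerProductSpace.toDual ℝ (E n)).symm.continuous.measurable.comp (measurable_fderiv ℝ f)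

theorem memLp_ind {S : Set (E n)} (hS : IsCompact S) (q : ℝ≥0∞) :
    MemLp (S.indicator fun _ => (1 : ℝ)) q (volume : Measure (E n)) :=
  memLp_indicator_const q hS.measurableSet 1 (Or.inr hS.measure_lt_top.ne)

/-- LSOB -/
theorem lsob : LsobStatement := by
  intro n p D φ hp hD hφ
  obtain ⟨⟨K, hK⟩, hs, hsub⟩ := hφ
  obtain ⟨δ, hδ0, hδ⟩ := hs.isCompact.exists_cthickening_subset_open hD hsub
  have hS : IsCompact (cthickening δ (tsupport φ)) := hs.isCompact.cthickening
  have hSc : IsClosed (cthickening δ (tsupport φ)) := isClosed_cthickening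
  have hφS : tsupport φ ⊆ cthickening δ (tsupport φ) := self_subset_cthickening _
  have hind := memLp_ind hS (ENNReal.ofReal p)
  have hgrad0 : ∀ x, x ∉ cthickening δ (tsupport φ) → fderiv ℝ φ x = 0 := by
    intro x hx
    by_contra hcon
    exact hx (hφS (support_fderiv_subset ℝ (by simpa using hcon)))
  have hmg : AEStronglyMeasurable (fun x => ∇ φ x) (volume : Measure (E n)) :=
    (measurable_grad φ).aestronglyMeasurable
  have hpos : ∀ i : ℕ, 0 < δ / (i + 1) := fun i => by positivity
  let ρ : ℕ → ContDiffBump (0 : E n) := fun i =>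
    ⟨δ / (i + 1) / 2, δ / (i + 1), half_pos (hpos i), half_lt_self (hpos i)⟩
  have hρout : ∀ i, (ρ i).rOut = δ / (i + 1) := fun i => rfl
  have hρin : ∀ i, (ρ i).rIn = δ / (i + 1) / 2 := fun i => rfl
  have hρle : ∀ i, (ρ i).rOut ≤ δ := by
    intro i
    rw [hρout]
    exact div_le_self hδ0.le (by linarith [i.cast_nonneg (α := ℝ)])
  have hρ0 : Tendsto (fun i => (ρ i).rOut) atTop (𝓝 0) := by
    have := (tendsto_const_div_atTop_nhds_zero_nat δ).comp (tendsto_add_atTop_nat 1)
    refine this.congr fun i => ?_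
    simp [hρout]
  have hzero : ∀ i x, x ∉ cthickening δ (tsupport φ) → moll (ρ i) φ x = 0 := by
    intro i x hx
    exact moll_support (ρ i) x fun h => hx (cthickening_mono (hρle i) _ h)
  have htsup : ∀ i, tsupport (moll (ρ i) φ) ⊆ cthickening δ (tsupport φ) := by
    intro i
    refine closure_minimal (fun x hx => ?_) hSc
    by_contra hcon
    exact hx (hzero i x hcon)
  have htest : ∀ i, Test D (moll (ρ i) φ) := fun i =>
    ⟨moll_contDiff (ρ i) hK.continuous, HasCompactSupport.of_support_subset_isCompact hS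
      ((subset_tsupport _).trans (htsup i)), (htsup i).trans hδ⟩
  have hmemg : MemLp (fun x => ∇ φ x) (ENNReal.ofReal p) (volume : Measure (E n)) := by
    refine hind.of_le_mul (c := K) hmg (Eventually.of_forall fun x => ?_)
    rw [norm_grad]
    by_cases hx : x ∈ cthickening δ (tsupport φ)
    · rw [indicator_of_mem hx, norm_one, mul_one]
      exact fderiv_bound hK x
    · rw [hgrad0 x hx, norm_zero]
      positivity
  refine ⟨hK.continuous.memLp_of_hasCompactSupport hs, hmemg, fun i => moll (ρ i) φ, htest, ?_, ?_⟩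
  · refine H58.dom hp (v := (cthickening δ (tsupport φ)).indicator fun _ => (1 : ℝ)) (B := K * δ)
      (fun i => ?_) hind (fun i => Eventually.of_forall fun x => ?_)
      (Eventually.of_forall fun x => ?_)
    · exact ((htest i).1.continuous.sub hK.continuous).aestronglyMeasurable
    · by_cases hx : x ∈ cthickening δ (tsupport φ)
      · rw [indicator_of_mem hx, norm_one, mul_one, Real.norm_eq_abs]
        exact (moll_dist (ρ i) hK x).trans (mul_le_mul_of_nonneg_left (hρle i) K.2)
      · show ‖moll (ρ i) φ x - φ x‖ ≤ _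
        rw [hzero i x hx, image_eq_zero_of_notMem_tsupport fun h => hx (hφS h), sub_zero, norm_zero]
        positivity
    · rw [tendsto_zero_iff_norm_tendsto_zero]
      refine squeeze_zero (fun i => norm_nonneg _) (fun i => (moll_dist (ρ i) hK x)) ?_
      simpa using hρ0.const_mul (K : ℝ)
  · have hloc : LocallyIntegrable (fderiv ℝ φ) (volume : Measure (E n)) := by
      have h1 : MemLp (fderiv ℝ φ) (ENNReal.ofReal p) (volume : Measure (E n)) := by
        refine hind.of_le_mul (c := K) (measurable_fderiv ℝ φ).aestronglyMeasurable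
          (Eventually.of_forall fun x => ?_)
        by_cases hx : x ∈ cthickening δ (tsupport φ)
        · rw [indicator_of_mem hx, norm_one, mul_one]
          exact fderiv_bound hK x
        · rw [hgrad0 x hx, norm_zero]
          positivity
      exact h1.locallyIntegrable (one_le_ofReal hp)
    have hae := ContDiffBump.ae_convolution_tendsto_right_of_locallyIntegrable (μ := volume)
      (φ := ρ) (l := atTop) (K := 2) hρ0 (Eventually.of_forall fun i => by
        rw [hρout, hρin]; linarith) hloc
    refine H58.dom hp (v := (cthickening δ (tsupport φ)).indicator fun _ => (1 : ℝ)) (B := K + K)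
      (fun i => ?_) hind (fun i => Eventually.of_forall fun x => ?_) ?_
    · exact ((continuous_grad (htest i).1).aestronglyMeasurable).sub hmg
    · rw [grad_sub_norm]
      by_cases hx : x ∈ cthickening δ (tsupport φ)
      · rw [indicator_of_mem hx, norm_one, mul_one]
        exact (norm_sub_le _ _).trans (add_le_add (moll_fderiv_bound (ρ i) hK x)
          (fderiv_bound hK x))
      · have h1 : fderiv ℝ (moll (ρ i) φ) x = 0 := by
          by_contra hcon
          exact hx (htsup i (support_fderiv_subset ℝ (by simpa using hcon)))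
        rw [h1, hgrad0 x hx, sub_zero, norm_zero]
        positivity
    · filter_upwards [hae] with x hx
      rw [tendsto_zero_iff_norm_tendsto_zero]
      simp_rw [grad_sub_norm, moll_fderiv _ hK]
      exact tendsto_zero_iff_norm_tendsto_zero.1 (tendsto_sub_nhds_zero_iff.2 hx)

/-- locally Lipschitz functions with compact support are Lipschitz -/
theorem lipschitz_of_compact {g : E n → ℝ} (hg : LocallyLipschitz g) (hs : HasCompactSupport g) :
    ∃ K : ℝ≥0, LipschitzWith K g := by
  have hS : IsCompact (cthickening 1 (tsupport g)) := hs.isCompact.cthickening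
  obtain ⟨K, hK⟩ := LocallyLipschitzOn.exists_lipschitzOnWith_of_compact hS
    (hg.locallyLipschitzOn)
  obtain ⟨M, hM⟩ := hs.exists_bound_of_continuous hg.continuous
  have hM0 : 0 ≤ M := (norm_nonneg _).trans (hM 0)
  have key : ∀ x y, x ∈ tsupport g → dist (g x) (g y) ≤ max K ⟨M, hM0⟩ * dist x y := by
    intro x y hx
    have hx1 : x ∈ cthickening 1 (tsupport g) := self_subset_cthickening _ hx
    by_cases hy : y ∈ cthickening 1 (tsupport g)
    · refine (hK.dist_le_mul x hx1 y hy).trans (mul_le_mul_of_nonneg_right ?_ dist_nonneg)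
      exact_mod_cast le_max_left _ _
    · have h1 : g y = 0 := image_eq_zero_of_notMem_tsupport fun h =>
        hy (self_subset_cthickening _ h)
      have h2 : 1 ≤ dist x y := by
        by_contra hcon
        exact hy (mem_cthickening_of_dist_le y x _ _ hx (by rw [dist_comm]; linarith))
      rw [h1, dist_zero_right]
      refine (hM x).trans ?_
      have h3 : M ≤ ((max K ⟨M, hM0⟩ : ℝ≥0) : ℝ) := by
        have : (⟨M, hM0⟩ : ℝ≥0) ≤ max K ⟨M, hM0⟩ := le_max_right _ _
        exact_mod_cast this
      nlinarith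
  refine ⟨max K ⟨M, hM0⟩, LipschitzWith.of_dist_le_mul fun x y => ?_⟩
  by_cases hx : x ∈ tsupport g
  · exact key x y hx
  · by_cases hy : y ∈ tsupport g
    · rw [dist_comm, dist_comm x y]
      exact key y x hy
    · rw [image_eq_zero_of_notMem_tsupport hx, image_eq_zero_of_notMem_tsupport hy, dist_self]
      positivity

/-- smooth cut-off functions -/
theorem exists_cutoff {Ω S : Set (E n)} (hΩ : IsOpen Ω) (hS : IsCompact S) (h : S ⊆ Ω) :
    ∃ η : E n → ℝ, ContDiff ℝ ∞ η ∧ HasCompactSupport η ∧ tsupport η ⊆ Ω ∧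
      ∀ x ∈ S, ∀ᶠ y in 𝓝 x, η y = 1 := by
  obtain ⟨δ, hδ0, hδ⟩ := hS.exists_cthickening_subset_open hΩ h
  obtain ⟨f, hf0, hf1, hf⟩ := exists_contMDiffMap_zero_one_nhds_of_isClosed (n := ⊤) (M := E n)
    𝓘(ℝ, E n) (s := (thickening δ S)ᶜ) (t := S) isOpen_thickening.isClosed_compl hS.isClosed
    (Set.disjoint_compl_left_iff_subset.2 (self_subset_thickening hδ0 S))
  have hfc : ContDiff ℝ ∞ f := f.contMDiff.contDiff
  have hsup : tsupport (f : E n → ℝ) ⊆ cthickening δ S := by
    refine closure_minimal (fun x hx => ?_) isClosed_cthickening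
    by_contra hcon
    apply hx
    have h1 : x ∈ (thickening δ S)ᶜ := fun h2 => hcon (thickening_subset_cthickening _ _ h2)
    exact (eventually_nhdsSet_iff_forall.1 hf0 x h1).self_of_nhds
  exact ⟨f, hfc, HasCompactSupport.of_support_subset_isCompact hS.cthickening
    ((subset_tsupport _).trans hsup), hsup.trans hδ, fun x hx =>
      eventually_nhdsSet_iff_forall.1 hf1 x hx⟩

/-- LSOBL -/
theorem lsobl : LsoblStatement := by
  intro n p Ω u hp hΩ hu D hD hDc hDΩ
  obtain ⟨η, hη, hηs, hηΩ, hη1⟩ := exists_cutoff hΩ hDc hDΩ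
  obtain ⟨K', hK'⟩ := ContDiff.lipschitzWith_of_hasCompactSupport hηs hη (by simp)
  obtain ⟨M, hM⟩ := hηs.exists_bound_of_continuous hη.continuous
  have hM0 : 0 ≤ M := (norm_nonneg _).trans (hM 0)
  have hloc : LocallyLipschitz fun x => η x * u x := by
    intro x
    by_cases hx : x ∈ Ω
    · obtain ⟨K, U, hU, hK⟩ := hu x hx
      have hxU : x ∈ U := mem_of_mem_nhds hU
      refine ⟨⟨M, hM0⟩ * K + (‖u x‖₊ + K) * K', U ∩ ball x 1,
        inter_mem hU (ball_mem_nhds x one_pos), LipschitzOnWith.of_dist_le_mul ?_⟩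
      intro y hy z hz
      have h1 : dist (u y) (u z) ≤ K * dist y z := hK.dist_le_mul y hy.1 z hz.1
      have h2 : |u z| ≤ |u x| + K := by
        have h3 := hK.dist_le_mul z hz.1 x hxU
        have h4 : dist z x ≤ 1 := (mem_ball.1 hz.2).le
        have h5 : |u z| ≤ |u x| + dist (u z) (u x) := by
          rw [Real.dist_eq]
          have := abs_sub_abs_le_abs_sub (u z) (u x)
          linarith
        have h6 : (K : ℝ) * dist z x ≤ K := mul_le_of_le_one_right K.2 h4
        linarith
      have h7 : dist (η y) (η z) ≤ K' * dist y z := hK'.dist_le_mul y z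
      have h8 := hM y
      rw [Real.norm_eq_abs] at h8
      rw [Real.dist_eq] at h1 h7 ⊢
      have h9 : η y * u y - η z * u z = η y * (u y - u z) + u z * (η y - η z) := by ring
      have hd : 0 ≤ dist y z := dist_nonneg
      calc |η y * u y - η z * u z| ≤ |η y * (u y - u z)| + |u z * (η y - η z)| := by
            rw [h9]; exact abs_add_le _ _
        _ = |η y| * |u y - u z| + |u z| * |η y - η z| := by rw [abs_mul, abs_mul]
        _ ≤ M * (K * dist y z) + (|u x| + K) * (K' * dist y z) :=
            add_le_add (mul_le_mul h8 h1 (abs_nonneg _) hM0)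
              (mul_le_mul h2 h7 (abs_nonneg _) (by positivity))
        _ = _ := by
            push_cast
            rw [Real.norm_eq_abs]
            show _ = (M * K + (|u x| + K) * K') * dist y z
            ring
    · have h1 : x ∉ tsupport η := fun h => hx (hηΩ h)
      have h2 : (tsupport η)ᶜ ∈ 𝓝 x := (isClosed_tsupport η).isOpen_compl.mem_nhds h1
      refine ⟨0, (tsupport η)ᶜ, h2, LipschitzOnWith.of_dist_le_mul ?_⟩
      intro y hy z hz
      show dist (η y * u y) (η z * u z) ≤ _
      rw [image_eq_zero_of_notMem_tsupport hy, image_eq_zero_of_notMem_tsupport hz]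
      simp
  have hcs : HasCompactSupport fun x => η x * u x := hηs.mul_right
  have hts : tsupport (fun x => η x * u x) ⊆ Ω := (tsupport_mul_subset_left).trans hηΩ
  obtain ⟨h1, h2, ψ, h3, h4, h5⟩ := lsob n p Ω (fun x => η x * u x) hp hΩ
    ⟨lipschitz_of_compact hloc hcs, hcs, hts⟩
  have hev : ∀ x ∈ D, (fun y => η y * u y) =ᶠ[𝓝 x] u := by
    intro x hx
    filter_upwards [hη1 x (subset_closure hx)] with y hy
    rw [hy, one_mul]
  have e1 : ∀ x ∈ D, η x * u x = u x := fun x hx => (hev x hx).self_of_nhds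
  have e2 : ∀ x ∈ D, ∇ (fun y => η y * u y) x = ∇ u x := by
    intro x hx
    rw [grad_eq, grad_eq, (hev x hx).fderiv_eq]
  have hr : (volume.restrict D : Measure (E n)) ≤ volume := Measure.restrict_le_self
  refine ⟨(memLp_congr_ae ?_).1 (h1.restrict D), (memLp_congr_ae ?_).1 (h2.restrict D), ψ,
    fun i => (h3 i).1.contDiffOn, ?_, ?_⟩
  · exact (ae_restrict_iff' hD.measurableSet).2 (Eventually.of_forall e1)
  · exact (ae_restrict_iff' hD.measurableSet).2 (Eventually.of_forall e2)
  · refine tendsto_of_tendsto_of_tendsto_of_le_of_le tendsto_const_nhds h4 (fun _ => bot_le)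
      fun i => ?_
    refine le_trans (le_of_eq ?_) (eLpNorm_mono_measure _ hr)
    refine eLpNorm_congr_ae ((ae_restrict_iff' hD.measurableSet).2
      (Eventually.of_forall fun x hx => ?_))
    show ψ i x - u x = ψ i x - η x * u x
    rw [e1 x hx]
  · refine tendsto_of_tendsto_of_tendsto_of_le_of_le tendsto_const_nhds h5 (fun _ => bot_le)
      fun i => ?_
    refine le_trans (le_of_eq ?_) (eLpNorm_mono_measure _ hr)
    refine eLpNorm_congr_ae ((ae_restrict_iff' hD.measurableSet).2
      (Eventually.of_forall fun x hx => ?_))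
    show ∇ (ψ i) x - ∇ u x = ∇ (ψ i) x - ∇ (fun y => η y * u y) x
    rw [e2 x hx]

end Pool.Agent.Lib.MP_abd978_an.UN.H82
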