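import Pool.Agent.Lib.MP_abd978_an.UN.Interfaces
import Pool.Agent.Lib.MP_abd978_an.H58.Chain

/-!
MULT, LTEST, UNIQ.
-/

set_option autoImplicit false

open MeasureTheory Metric Set Filter Topology ContDiff
open scoped Gradient RealInnerProductSpace NNReal ENNReal

namespace Pool.Agent.Lib.MP_abd978_an.UN.H82

variable {n : ℕ}

/-- MULT -/
theorem mult : MultStatement := by
  intro n p D u v η hp hD hu hη
  obtain ⟨K, hK0, hK1, hK2⟩ := hη.exists_bound
  obtain ⟨hu1, hv1, φ, hφ, h1, h2⟩ := hu
  have hDm : MeasurableSet D := hD.measurableSet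
  have hηc : Continuous η := hη.1.continuous
  have hφm : ∀ i, AEStronglyMeasurable (φ i) (volume.restrict D) := fun i =>
    (hφ i).continuousOn.aestronglyMeasurable hDm
  have hout : ∀ x ∉ D, η x = 0 := fun x hx => image_eq_zero_of_notMem_tsupport fun h => hx (hη.2.2 h)
  have hout' : ∀ x ∉ D, ∇ η x = 0 := fun x hx => grad_eq_zero_of_notMem fun h => hx (hη.2.2 h)
  have hgm : AEStronglyMeasurable (fun x => ∇ η x) (volume.restrict D) :=
    (continuous_grad hη.1).aestronglyMeasurable
  have htest : ∀ i, Test D fun x => η x * φ i x := fun i =>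
    H58.test_mul (T := id) hD hη (hφ i) contDiff_id
  refine ⟨?_, ?_, fun i x => η x * φ i x, htest, ?_, ?_⟩
  · refine H58.memLp_restrict hDm (fun x hx => by simp [hout x hx]) ?_
    refine hu1.of_le_mul (c := K) (hηc.aestronglyMeasurable.mul hu1.1)
      (Eventually.of_forall fun x => ?_)
    rw [norm_mul]
    exact mul_le_mul_of_nonneg_right (hK1 _) (norm_nonneg _)
  · refine H58.memLp_restrict hDm (fun x hx => by simp [hout x hx, hout' x hx]) ?_
    refine MemLp.add ?_ ?_
    · refine hu1.of_le_mul (c := K) (hu1.1.smul hgm) (Eventually.of_forall fun x => ?_)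
      rw [norm_smul, mul_comm]
      exact mul_le_mul_of_nonneg_right (hK2 _) (norm_nonneg _)
    · refine hv1.of_le_mul (c := K) (hηc.aestronglyMeasurable.smul hv1.1)
        (Eventually.of_forall fun x => ?_)
      rw [norm_smul]
      exact mul_le_mul_of_nonneg_right (hK1 _) (norm_nonneg _)
  · have h4 : Tendsto (fun i => eLpNorm (fun x => η x * φ i x - η x * u x)
        (ENNReal.ofReal p) (volume.restrict D)) atTop (𝓝 0) := by
      refine H58.tendsto_of_le (B := K) (fun i => Eventually.of_forall fun x => ?_) h1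
      rw [← mul_sub, norm_mul]
      exact mul_le_mul_of_nonneg_right (hK1 _) (norm_nonneg _)
    refine h4.congr fun i => ?_
    exact (H58.eLpNorm_restrict hDm fun x hx => by simp [hout x hx]).symm
  · have h4 : Tendsto (fun i => eLpNorm (fun x => (φ i x - u x) • ∇ η x)
        (ENNReal.ofReal p) (volume.restrict D)) atTop (𝓝 0) := by
      refine H58.tendsto_of_le (B := K) (fun i => Eventually.of_forall fun x => ?_) h1
      rw [norm_smul, mul_comm]
      exact mul_le_mul_of_nonneg_right (hK2 _) (norm_nonneg _)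
    have h3 : Tendsto (fun i => eLpNorm (fun x => η x • (∇ (φ i) x - v x))
        (ENNReal.ofReal p) (volume.restrict D)) atTop (𝓝 0) := by
      refine H58.tendsto_of_le (B := K) (fun i => Eventually.of_forall fun x => ?_) h2
      rw [norm_smul]
      exact mul_le_mul_of_nonneg_right (hK1 _) (norm_nonneg _)
    have h5 := H58.tendsto_add hp (fun i => ((hφm i).sub hu1.1).smul hgm)
      (fun i => hηc.aestronglyMeasurable.smul
        ((H58.measurable_grad (φ i)).aestronglyMeasurable.sub hv1.1)) h4 h3
    refine h5.congr fun i => ?_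
    rw [H58.eLpNorm_restrict (D := D) hDm (f := fun x => ∇ (fun x => η x * φ i x) x -
      (u x • ∇ η x + η x • v x)) ?_]
    · refine eLpNorm_congr_ae ?_
      refine (ae_restrict_iff' hDm).2 (Eventually.of_forall fun x hx => ?_)
      have h6 : DifferentiableAt ℝ (φ i) x :=
        ((hφ i).contDiffAt (hD.mem_nhds hx)).differentiableAt (by simp)
      have h8 : ∇ (fun y => η y * φ i y) x = η x • ∇ (φ i) x + φ i x • ∇ η x :=
        grad_mul (hη.1.differentiable (by simp) x) h6
      show (φ i x - u x) • ∇ η x + η x • (∇ (φ i) x - v x) = ∇ (fun y => η y * φ i y) x -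
        (u x • ∇ η x + η x • v x)
      rw [h8, smul_sub, sub_smul]
      abel
    · intro x hx
      have h9 : ∇ (fun x => η x * φ i x) x = 0 :=
        grad_eq_zero_of_notMem fun h => hx ((htest i).2.2 h)
      rw [h9]
      simp [hout x hx, hout' x hx]

/-- open neighbourhoods of compact sets -/
theorem exists_nbhd {U S : Set (E n)} (hU : IsOpen U) (hS : IsCompact S) (h : S ⊆ U) :
    ∃ D : Set (E n), IsOpen D ∧ S ⊆ D ∧ IsCompact (closure D) ∧ closure D ⊆ U := by
  obtain ⟨δ, hδ0, hδ⟩ := hS.exists_cthickening_subset_open hU h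
  refine ⟨thickening δ S, isOpen_thickening, self_subset_thickening hδ0 S, ?_,
    (closure_thickening_subset_cthickening δ S).trans hδ⟩
  exact hS.cthickening.of_isClosed_subset isClosed_closure
    (closure_thickening_subset_cthickening δ S)

/-- LTEST -/
theorem ltest (hpair : PairStatement) (hlsob : LsobStatement) : LtestStatement := by
  intro n p a α β U u v φ ha hU hu hv hφ
  obtain ⟨hφK, hφs, hφU⟩ := hφ
  obtain ⟨D, hD, hSD, hDc, hDU⟩ := exists_nbhd hU hφs.isCompact hφU
  exact hpair n p volume a α β D v φ (fun x => ∇ φ x) ha hD (hu D hD hDc hDU).2.1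
    (hv.mono (subset_closure.trans hDU)) (hlsob n p D φ ha.hp hD ⟨hφK, hφs, hSD⟩)

theorem integral_grad_eq_zero {D : Set (E n)} {ψ : E n → ℝ} (h : Test D ψ) :
    ∫ x, ∇ ψ x = 0 := by
  have hgc : Continuous fun x => ∇ ψ x := continuous_grad h.1
  have hgi : Integrable fun x => ∇ ψ x :=
    hgc.integrable_of_hasCompactSupport (hasCompactSupport_grad h)
  have key : ∀ c : E n, ⟪c, ∫ x, ∇ ψ x⟫ = 0 := by
    intro c
    rw [← integral_inner hgi c]
    have h1 : ∀ x, ⟪c, ∇ ψ x⟫ = 1 * fderiv ℝ ψ x c := by
      intro x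
      rw [real_inner_comm, grad_eq, InnerProductSpace.toDual_symm_apply, one_mul]
    simp_rw [h1]
    have h2 : Continuous fun x => fderiv ℝ ψ x c :=
      (h.1.continuous_fderiv (by simp)).clm_apply continuous_const
    have h3 : HasCompactSupport fun x => fderiv ℝ ψ x c := h.2.1.fderiv_apply ℝ c
    have h4 := integral_mul_fderiv_eq_neg_fderiv_mul_of_integrable (μ := (volume : Measure (E n)))
      (f := fun _ => (1 : ℝ)) (g := ψ) (v := c) ?_ ?_ ?_ ?_ ?_
    · rw [h4]
      simp
    · simp
    · simpa using h2.integrable_of_hasCompactSupport h3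
    · simpa using h.1.continuous.integrable_of_hasCompactSupport h.2.1
    · intro x _
      exact differentiableAt_const _
    · intro x _
      exact h.1.differentiable (by simp) x
  have := key (∫ x, ∇ ψ x)
  exact inner_self_eq_zero.1 this

/-- gradients of functions in `H_0` have integral zero -/
theorem h0_integral {p : ℝ} {D : Set (E n)} {w : E n → ℝ} {W : E n → E n} (hp : 1 < p)
    (hD : MeasurableSet D) (hDf : volume D ≠ ⊤) (h : H0 volume p D w W) : ∫ x, W x = 0 := by
  have h0 := (H0.ae_eq_zero hp hD h).2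
  obtain ⟨h1, h2, ψ, h3, h4, h5⟩ := h
  have hfin : IsFiniteMeasure (volume.restrict D : Measure (E n)) :=
    ⟨by rw [Measure.restrict_apply_univ]; exact lt_top_iff_ne_top.2 hDf⟩
  have h6 : ∫ x, W x = ∫ x in D, W x := by
    symm
    refine setIntegral_eq_integral_of_ae_compl_eq_zero ?_
    exact (ae_restrict_iff' hD.compl).1 h0
  have h7 : ∀ i, ∫ x in D, ∇ (ψ i) x = 0 := by
    intro i
    rw [setIntegral_eq_integral_of_forall_compl_eq_zero, integral_grad_eq_zero (h3 i)]
    intro x hx
    exact grad_eq_zero_of_notMem fun h => hx ((h3 i).2.2 h)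
  have h8 : Tendsto (fun i => ∫ x in D, ∇ (ψ i) x) atTop (𝓝 (∫ x in D, W x)) := by
    refine tendsto_integral_of_L1' _ h2.1.restrict (Eventually.of_forall fun i => ?_) ?_
    · exact ((continuous_grad (h3 i).1).integrable_of_hasCompactSupport
        (hasCompactSupport_grad (h3 i))).restrict
    · have h9 : ∀ i, eLpNorm ((fun x => ∇ (ψ i) x) - W) 1 (volume.restrict D) ≤
          eLpNorm (fun x => ∇ (ψ i) x - W x) (ENNReal.ofReal p) volume *
            (volume.restrict D) univ ^ (1 / (1 : ℝ≥0∞).toReal - 1 / (ENNReal.ofReal p).toReal) := by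
        intro i
        refine (eLpNorm_le_eLpNorm_mul_rpow_measure_univ (one_le_ofReal hp) ?_).trans ?_
        · exact ((continuous_grad (h3 i).1).aestronglyMeasurable).sub h2.1.restrict
        · gcongr
          exact eLpNorm_mono_measure _ Measure.restrict_le_self
      have h10 : Tendsto (fun i => eLpNorm (fun x => ∇ (ψ i) x - W x) (ENNReal.ofReal p) volume *
            (volume.restrict D) univ ^ (1 / (1 : ℝ≥0∞).toReal - 1 / (ENNReal.ofReal p).toReal))
          atTop (𝓝 (0 * (volume.restrict D) univ ^
            (1 / (1 : ℝ≥0∞).toReal - 1 / (ENNReal.ofReal p).toReal))) := by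
        refine ENNReal.Tendsto.mul_const h5 (Or.inr ?_)
        refine ENNReal.rpow_ne_top_of_nonneg ?_ (measure_ne_top _ _)
        rw [ENNReal.toReal_one, ENNReal.toReal_ofReal (by linarith), sub_nonneg]
        rw [div_le_div_iff₀ (by linarith) one_pos]
        linarith
      rw [zero_mul] at h10
      exact tendsto_of_tendsto_of_tendsto_of_le_of_le tendsto_const_nhds h10 (fun _ => bot_le) h9
  have h11 : Tendsto (fun i => ∫ x in D, ∇ (ψ i) x) atTop (𝓝 0) := by
    simp_rw [h7]
    exact tendsto_const_nhds
  rw [h6]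
  exact tendsto_nhds_unique h8 h11

/-- UNIQ -/
theorem uniq : UniqStatement := by
  intro n p U u v v' hp hU hu hu'
  have hloc : ∀ w : E n → E n, LocSob volume p U u w → LocallyIntegrableOn w U := by
    intro w hw x hx
    obtain ⟨D, hD, hSD, hDc, hDU⟩ := exists_nbhd hU (isCompact_singleton (x := x))
      (singleton_subset_iff.2 hx)
    have hxD : x ∈ D := hSD (mem_singleton x)
    have h1 := (hw D hD hDc hDU).2.1
    have hfin : IsFiniteMeasure (volume.restrict D : Measure (E n)) :=
      ⟨by rw [Measure.restrict_apply_univ]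
          exact (measure_mono subset_closure).trans_lt hDc.measure_lt_top⟩
    exact ⟨D, mem_nhdsWithin_of_mem_nhds (hD.mem_nhds hxD), h1.integrable (one_le_ofReal hp)⟩
  have key := hU.ae_eq_zero_of_integral_contDiff_smul_eq_zero (μ := volume)
    (f := fun x => v x - v' x) ((hloc v hu).sub (hloc v' hu')) ?_
  · filter_upwards [key] with x hx hxU
    exact sub_eq_zero.1 (hx hxU)
  · intro g hg hgs hgU
    obtain ⟨D, hD, hSD, hDc, hDU⟩ := exists_nbhd hU hgs.isCompact hgU
    have hDf : volume D ≠ ⊤ := ((measure_mono subset_closure).trans_lt hDc.measure_lt_top).ne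
    have hgt : Test D g := ⟨hg, hgs, hSD⟩
    have h1 := mult n p D u v g hp hD (hu D hD hDc hDU) hgt
    have h2 := mult n p D u v' g hp hD (hu' D hD hDc hDU) hgt
    have h3 := h0_integral hp hD.measurableSet hDf h1
    have h4 := h0_integral hp hD.measurableSet hDf h2
    have hi : ∀ W : E n → E n, ∀ w : E n → ℝ, H0 volume p D w W → Integrable W := by
      intro W w hW
      have h5 := (H0.ae_eq_zero hp hD.measurableSet hW).2
      have hfin : IsFiniteMeasure (volume.restrict D : Measure (E n)) :=
        ⟨by rw [Measure.restrict_apply_univ]; exact lt_top_iff_ne_top.2 hDf⟩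
      have h6 : IntegrableOn W D := (hW.2.1.restrict D).integrable (one_le_ofReal hp)
      exact h6.integrable_of_ae_notMem_eq_zero ((ae_restrict_iff' hD.measurableSet.compl).1 h5)
    have h5 : ∫ x, g x • (v x - v' x) = ∫ x, ((u x • ∇ g x + g x • v x) -
        (u x • ∇ g x + g x • v' x)) := by
      congr 1
      funext x
      rw [smul_sub]
      abel
    rw [h5, integral_sub (hi _ _ h1) (hi _ _ h2), h3, h4, sub_zero]

end Pool.Agent.Lib.MP_abd978_an.UN.H82
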