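import Pool.Agent.Lib.MP_abd978_an.UN.Interfaces
import Pool.Agent.Lib.MP_abd978_an.H86.Intg

/-!
SCONT: continuous dependence of the solutions on the right hand side.
-/

set_option autoImplicit false

open MeasureTheory Metric Set Filter Topology ContDiff
open scoped Gradient RealInnerProductSpace NNReal ENNReal

namespace Pool.Agent.Lib.MP_abd978_an.UN.H82

variable {n : ℕ}

theorem dx_spec {p : ℝ} (hp : 1 < p) :
    1 < dx p ∧ (p - 1) * dx p = p ∧ (dx p).HolderConjugate p ∧ dx p - 1 = (p - 1)⁻¹ := by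
  have h0 : 0 < p - 1 := by linarith
  have h1 : 1 < dx p := by
    unfold dx
    rw [lt_div_iff₀ h0]
    linarith
  refine ⟨h1, ?_, ?_, ?_⟩
  · unfold dx
    field_simp
  · rw [Real.holderConjugate_iff]
    refine ⟨h1, ?_⟩
    unfold dx
    have : p ≠ 0 := by linarith
    field_simp
    ring
  · unfold dx
    field_simp
    ring

theorem h0_neg {μ : Measure (E n)} {p : ℝ} {D : Set (E n)} {u : E n → ℝ} {v : E n → E n}
    (h : H0 μ p D u v) : H0 μ p D (fun x => -u x) fun x => -v x := by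
  obtain ⟨h1, h2, ψ, h3, h4, h5⟩ := h
  refine ⟨h1.neg, h2.neg, fun i x => -ψ i x, fun i => ⟨(h3 i).1.neg, (h3 i).2.1.neg, ?_⟩, ?_, ?_⟩
  · have h6 : tsupport (fun x => -ψ i x) = tsupport (ψ i) := by
      unfold tsupport
      congr 1
      ext x
      simp
    rw [h6]
    exact (h3 i).2.2
  · refine h4.congr fun i => ?_
    refine eLpNorm_congr_norm_ae (Eventually.of_forall fun x => ?_)
    rw [← norm_neg]
    congr 1
    ring
  · refine h5.congr fun i => ?_
    refine eLpNorm_congr_norm_ae (Eventually.of_forall fun x => ?_)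
    have h7 : ∇ (fun y => -ψ i y) x = -∇ (ψ i) x := by
      have h8 : HasFDerivAt (fun y => -ψ i y) (-fderiv ℝ (ψ i) x) x :=
        (((h3 i).1.differentiable (by simp)) x).hasFDerivAt.neg
      rw [grad_of_hasFDerivAt h8, map_neg]
      rfl
    show ‖∇ (ψ i) x - v x‖ = ‖∇ (fun y => -ψ i y) x - -v x‖
    rw [h7, neg_sub_neg, norm_sub_rev]

theorem h0_sub {μ : Measure (E n)} {p : ℝ} {D : Set (E n)} {u u' : E n → ℝ} {v v' : E n → E n}
    (hp : 1 < p) (h : H0 μ p D u v) (h' : H0 μ p D u' v') :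
    H0 μ p D (fun x => u x - u' x) fun x => v x - v' x := by
  have h1 := h.add hp (h0_neg h')
  simpa [sub_eq_add_neg] using h1

/-- Hoelder's inequality -/
theorem pairing {p : ℝ} (hp : 1 < p) {ν : Measure (E n)} {H V : E n → E n}
    (hH : MemLp H (ENNReal.ofReal (dx p)) ν) (hV : MemLp V (ENNReal.ofReal p) ν) :
    Integrable (fun x => ‖H x‖ * ‖V x‖) ν ∧ Integrable (fun x => ⟪H x, V x⟫) ν ∧
      ∫ x, ‖H x‖ * ‖V x‖ ∂ν ≤
        (eLpNorm H (ENNReal.ofReal (dx p)) ν).toReal * (eLpNorm V (ENNReal.ofReal p) ν).toReal := by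
  obtain ⟨hq, -, hc, -⟩ := dx_spec hp
  have hi1 := H86.integrable_rpow hq hH
  have hi2 := H86.integrable_rpow hp hV
  have h1 : Integrable (fun x => ‖H x‖ * ‖V x‖) ν := by
    refine ((hi1.div_const (dx p)).add (hi2.div_const p)).mono' (hH.1.norm.mul hV.1.norm)
      (Eventually.of_forall fun x => ?_)
    rw [Real.norm_of_nonneg (by positivity)]
    exact Real.young_inequality_of_nonneg (norm_nonneg _) (norm_nonneg _) hc
  refine ⟨h1, h1.mono' (hH.1.inner hV.1) (Eventually.of_forall fun x =>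
    norm_inner_le_norm (𝕜 := ℝ) _ _), ?_⟩
  have h2 := integral_mul_norm_le_Lp_mul_Lq hc hH hV
  rwa [H86.toReal_eLpNorm' hq hH, H86.toReal_eLpNorm' hp hV] at h2

theorem point_ineq {p : ℝ} (hp : 1 < p) {s y l : ℝ} (hs : 0 ≤ s) (hy : 0 ≤ y) (hl : 0 < l) :
    s * y ≤ min s (l * y ^ (p - 1)) * y + (l ^ (dx p - 1))⁻¹ * s ^ dx p := by
  obtain ⟨hq, -, hc, hq1⟩ := dx_spec hp
  have h0 : 0 < p - 1 := by linarith
  by_cases h : s ≤ l * y ^ (p - 1)
  · rw [min_eq_left h]
    have : 0 ≤ (l ^ (dx p - 1))⁻¹ * s ^ dx p := by positivity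
    linarith
  · push Not at h
    have hs0 : 0 < s := lt_of_le_of_lt (by positivity) h
    have h1 : y ^ (p - 1) ≤ s / l := by
      rw [le_div_iff₀ hl, mul_comm]
      exact h.le
    have h2 : y ≤ (s / l) ^ (dx p - 1) := by
      have h3 := Real.rpow_le_rpow (by positivity) h1 (by positivity : 0 ≤ (p - 1)⁻¹)
      rwa [← Real.rpow_mul hy, mul_inv_cancel₀ h0.ne', Real.rpow_one, ← hq1] at h3
    have h4 : 0 ≤ min s (l * y ^ (p - 1)) * y := by positivity
    have h5 : s * y ≤ (l ^ (dx p - 1))⁻¹ * s ^ dx p := by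
      refine (mul_le_mul_of_nonneg_left h2 hs).trans (le_of_eq ?_)
      rw [Real.div_rpow hs hl.le, Real.rpow_sub_one hs0.ne']
      field_simp
    linarith

/-- weak convergence -/
theorem weak_tendsto {p : ℝ} (hp : 1 < p) {ν : Measure (E n)} {F : ℕ → E n → E n} {Y : E n → E n}
    {M : ℝ} (hF : ∀ j, MemLp (F j) (ENNReal.ofReal (dx p)) ν)
    (hM : ∀ j, ∫ x, ‖F j x‖ ^ dx p ∂ν ≤ M) (hY : MemLp Y (ENNReal.ofReal p) ν)
    (hlim : ∀ᵐ x ∂ν, Tendsto (fun j => F j x) atTop (𝓝 0)) :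
    Tendsto (fun j => ∫ x, ‖F j x‖ * ‖Y x‖ ∂ν) atTop (𝓝 0) := by
  obtain ⟨hq, -, hc, hq1⟩ := dx_spec hp
  have h0 : 0 < p - 1 := by linarith
  have hM0 : 0 ≤ M := (integral_nonneg fun x => by positivity).trans (hM 0)
  have hYi := H86.integrable_rpow hp hY
  have hYp : ∀ x, ‖Y x‖ ^ (p - 1) * ‖Y x‖ = ‖Y x‖ ^ p := by
    intro x
    rcases (norm_nonneg (Y x)).eq_or_lt with h | h
    · rw [← h, Real.zero_rpow (by linarith), Real.zero_rpow (by linarith), zero_mul]
    · rw [← Real.rpow_add_one h.ne']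
      congr 1
      ring
  rw [Metric.tendsto_atTop]
  intro ε hε
  obtain ⟨l, hl0, hl⟩ : ∃ l : ℝ, 0 < l ∧ (l ^ (dx p - 1))⁻¹ * M ≤ ε / 2 := by
    have h1 : Tendsto (fun l : ℝ => (l ^ (dx p - 1))⁻¹ * M) atTop (𝓝 (0 * M)) :=
      ((tendsto_rpow_atTop (by linarith)).inv_tendsto_atTop).mul_const M
    rw [zero_mul] at h1
    obtain ⟨l, h2, h3⟩ := ((h1.eventually (ge_mem_nhds (half_pos hε))).and
      (eventually_gt_atTop 0)).exists
    exact ⟨l, h3, h2⟩
  have hm : ∀ j, AEStronglyMeasurable (fun x => min ‖F j x‖ (l * ‖Y x‖ ^ (p - 1)) * ‖Y x‖) ν := by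
    intro j
    have h1 : AEMeasurable (fun x => ‖F j x‖) ν := (hF j).1.norm.aemeasurable
    have h2 : AEMeasurable (fun x => ‖Y x‖) ν := hY.1.norm.aemeasurable
    exact ((h1.min ((h2.pow_const _).const_mul l)).mul h2).aestronglyMeasurable
  have hb : ∀ j x, ‖min ‖F j x‖ (l * ‖Y x‖ ^ (p - 1)) * ‖Y x‖‖ ≤ l * ‖Y x‖ ^ p := by
    intro j x
    rw [Real.norm_of_nonneg (by positivity), ← hYp, ← mul_assoc]
    exact mul_le_mul_of_nonneg_right (min_le_right _ _) (norm_nonneg _)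
  have hdct : Tendsto (fun j => ∫ x, min ‖F j x‖ (l * ‖Y x‖ ^ (p - 1)) * ‖Y x‖ ∂ν) atTop
      (𝓝 (∫ x, (0 : ℝ) ∂ν)) := by
    refine tendsto_integral_of_dominated_convergence (fun x => l * ‖Y x‖ ^ p) hm
      (hYi.const_mul l) (fun j => Eventually.of_forall (hb j)) ?_
    filter_upwards [hlim] with x hx
    refine squeeze_zero (fun j => by positivity) (fun j =>
      mul_le_mul_of_nonneg_right (min_le_left _ _) (norm_nonneg _)) ?_
    simpa using hx.norm.mul_const ‖Y x‖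
  rw [integral_zero] at hdct
  obtain ⟨N, hN⟩ := (Metric.tendsto_atTop.1 hdct) (ε / 2) (half_pos hε)
  refine ⟨N, fun j hj => ?_⟩
  have h1 := hN j hj
  rw [Real.dist_eq, sub_zero] at h1 ⊢
  have h2 := le_abs_self (∫ x, min ‖F j x‖ (l * ‖Y x‖ ^ (p - 1)) * ‖Y x‖ ∂ν)
  rw [abs_of_nonneg (integral_nonneg fun x => by positivity)]
  have hi1 : Integrable (fun x => min ‖F j x‖ (l * ‖Y x‖ ^ (p - 1)) * ‖Y x‖) ν :=
    (hYi.const_mul l).mono' (hm j) (Eventually.of_forall (hb j))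
  have hi2 := H86.integrable_rpow hq (hF j)
  have h3 : ∫ x, ‖F j x‖ * ‖Y x‖ ∂ν ≤ ∫ x, (min ‖F j x‖ (l * ‖Y x‖ ^ (p - 1)) * ‖Y x‖ +
      (l ^ (dx p - 1))⁻¹ * ‖F j x‖ ^ dx p) ∂ν := by
    refine integral_mono (pairing hp (hF j) hY).1 (hi1.add (hi2.const_mul _)) fun x => ?_
    exact point_ineq hp (norm_nonneg _) (norm_nonneg _) hl0
  rw [integral_add hi1 (hi2.const_mul _), integral_const_mul] at h3
  have h4 : (l ^ (dx p - 1))⁻¹ * ∫ x, ‖F j x‖ ^ dx p ∂ν ≤ (l ^ (dx p - 1))⁻¹ * M :=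
    mul_le_mul_of_nonneg_left (hM j) (by positivity)
  linarith

theorem frz_of_op {p : ℝ} {μ : Measure (E n)} {a : E n → E n → E n} {α β : ℝ}
    (h : Op p μ a α β) (x : E n) : Frz p (a x) :=
  ⟨h.cont x, h.mono x, h.hom x, h.neg x⟩

theorem a_zero {p : ℝ} {μ : Measure (E n)} {a : E n → E n → E n} {α β : ℝ}
    (h : Op p μ a α β) (x : E n) : a x 0 = 0 := by
  have h1 := h.bdd x 0
  rw [norm_zero, Real.zero_rpow (by linarith [h.hp]), mul_zero] at h1
  exact norm_le_zero_iff.1 h1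

theorem memLp_a {p : ℝ} {μ ν : Measure (E n)} {a : E n → E n → E n} {α β : ℝ}
    (h : Op p μ a α β) {v : E n → E n} (hv : MemLp v (ENNReal.ofReal p) ν) :
    MemLp (fun x => a x (v x)) (ENNReal.ofReal (dx p)) ν := by
  have hp := h.hp
  obtain ⟨hq, hpq, -, -⟩ := dx_spec hp
  have hm : AEStronglyMeasurable (fun x => a x (v x)) ν :=
    (h.meas.comp_aemeasurable (aemeasurable_id.prodMk hv.1.aemeasurable)).aestronglyMeasurable
  have h1 := H86.integrable_rpow hp hv
  have h2 : Integrable (fun x => ‖a x (v x)‖ ^ dx p) ν := by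
    refine (h1.const_mul (β ^ dx p)).mono' (hm.norm.aemeasurable.pow_const _).aestronglyMeasurable
      (Eventually.of_forall fun x => ?_)
    rw [Real.norm_of_nonneg (by positivity)]
    have hβ : 0 ≤ β := h.hα.le.trans h.hαβ
    refine (Real.rpow_le_rpow (norm_nonneg _) (h.bdd x (v x)) (by linarith)).trans (le_of_eq ?_)
    rw [Real.mul_rpow hβ (by positivity), ← Real.rpow_mul (norm_nonneg _), hpq]
  have h3 := (integrable_norm_rpow_iff (p := ENNReal.ofReal (dx p)) hm (H86.ofReal_ne_zero' hq)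
    ENNReal.ofReal_ne_top).1 ?_
  · exact h3
  · rwa [ENNReal.toReal_ofReal (by linarith)]

theorem rpow_a_bound {p : ℝ} {μ : Measure (E n)} {a : E n → E n → E n} {α β : ℝ}
    (h : Op p μ a α β) (x ξ : E n) : α ^ dx p * ‖ξ‖ ^ p ≤ ‖a x ξ‖ ^ dx p := by
  have hp := h.hp
  obtain ⟨hq, hpq, -, -⟩ := dx_spec hp
  rcases (norm_nonneg ξ).eq_or_lt with h0 | h0
  · rw [← h0, Real.zero_rpow (by linarith), mul_zero]
    positivity
  · have h1 : α * ‖ξ‖ ^ (p - 1) ≤ ‖a x ξ‖ := by
      have h2 := (h.ell x ξ).trans ((le_abs_self _).trans (abs_real_inner_le_norm (a x ξ) ξ))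
      rw [← mul_le_mul_iff_left₀ h0]
      refine le_trans (le_of_eq ?_) h2
      rw [mul_assoc, ← Real.rpow_add_one h0.ne']
      congr 2
      ring
    have h3 := Real.rpow_le_rpow (by have := h.hα; positivity) h1 (by linarith : 0 ≤ dx p)
    rwa [Real.mul_rpow h.hα.le (by positivity), ← Real.rpow_mul (norm_nonneg _), hpq] at h3

theorem add_rpow_le {q s t : ℝ} (hq : 0 ≤ q) (hs : 0 ≤ s) (ht : 0 ≤ t) :
    (s + t) ^ q ≤ 2 ^ q * (s ^ q + t ^ q) := by
  rcases le_total s t with h | h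
  · have h1 : (s + t) ^ q ≤ (2 * t) ^ q := Real.rpow_le_rpow (by positivity) (by linarith) hq
    rw [Real.mul_rpow (by norm_num) ht] at h1
    have h2 : 0 ≤ (2 : ℝ) ^ q * s ^ q := by positivity
    linarith
  · have h1 : (s + t) ^ q ≤ (2 * s) ^ q := Real.rpow_le_rpow (by positivity) (by linarith) hq
    rw [Real.mul_rpow (by norm_num) hs] at h1
    have h2 : 0 ≤ (2 : ℝ) ^ q * t ^ q := by positivity
    linarith

/-- SCONT -/
theorem scont (hM : MoncStatement) (hS : SboundStatement) : ScontStatement := by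
  intro n p a α β R H Hs u U us Us Y hn hnp hop hR hH hHs hlim hsol hsols hY
  have hp := hop.hp
  obtain ⟨hq, hpq, hc, hq1⟩ := dx_spec hp
  have hα := hop.hα
  have hβ : 0 < β := hop.hα.trans_le hop.hαβ
  set ν : Measure (E n) := volume.restrict (ball 0 R) with hν
  have hνle : ν ≤ volume := Measure.restrict_le_self
  have hU : MemLp U (ENNReal.ofReal p) volume := hsol.h0.2.1
  have hUs : ∀ j, MemLp (Us j) (ENNReal.ofReal p) volume := fun j => (hsols j).h0.2.1
  set b : ℕ → ℝ := fun j =>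
    (eLpNorm (fun x => Hs j x - H x) (ENNReal.ofReal (dx p)) ν).toReal with hb
  have hb0 : Tendsto b atTop (𝓝 0) := by
    have := (ENNReal.continuousAt_toReal ENNReal.zero_ne_top).tendsto.comp hlim
    simpa [Function.comp_def] using this
  obtain ⟨C, hC⟩ : ∃ C, ∀ j, b j ≤ C := by
    obtain ⟨C, hC⟩ := hb0.bddAbove_range
    exact ⟨C, fun j => hC (mem_range_self j)⟩
  -- bounds
  set A1 : ℝ := β / α * ((eLpNorm H (ENNReal.ofReal (dx p)) ν).toReal + C) with hA1
  have hC0 : 0 ≤ C := (ENNReal.toReal_nonneg).trans (hC 0)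
  have hA10 : 0 ≤ A1 := by positivity
  have hroot : ∀ (I A : ℝ), 0 ≤ I → 0 ≤ A → I ^ (1 / dx p) ≤ A → I ≤ A ^ dx p := by
    intro I A hI hA h
    have h1 := Real.rpow_le_rpow (by positivity) h (by linarith : 0 ≤ dx p)
    rwa [← Real.rpow_mul hI, one_div, inv_mul_cancel₀ (by linarith), Real.rpow_one] at h1
  have hbd : ∀ (K : E n → E n) (w : E n → ℝ) (W : E n → E n),
      MemLp K (ENNReal.ofReal (dx p)) ν → Sol p a R K w W →
      (eLpNorm K (ENNReal.ofReal (dx p)) ν).toReal ≤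
        (eLpNorm H (ENNReal.ofReal (dx p)) ν).toReal + C →
      ∫ x, ‖a x (W x)‖ ^ dx p ≤ A1 ^ dx p := by
    intro K w W hK hsolK hle
    have h1 := hS n p a α β R K w W hn hnp hop hR hK hsolK
    rw [← hν, H86.toReal_eLpNorm' hq hK] at h1
    refine hroot _ _ (integral_nonneg fun x => by positivity) hA10 (h1.trans ?_)
    exact mul_le_mul_of_nonneg_left hle (by positivity)
  have hbdU : ∫ x, ‖a x (U x)‖ ^ dx p ≤ A1 ^ dx p := hbd H u U hH hsol (by linarith)
  have hbdUs : ∀ j, ∫ x, ‖a x (Us j x)‖ ^ dx p ≤ A1 ^ dx p := by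
    intro j
    refine hbd (Hs j) (us j) (Us j) (hHs j) (hsols j) ?_
    have h1 : eLpNorm (Hs j) (ENNReal.ofReal (dx p)) ν ≤ eLpNorm H (ENNReal.ofReal (dx p)) ν +
        eLpNorm (fun x => Hs j x - H x) (ENNReal.ofReal (dx p)) ν := by
      have h2 := eLpNorm_add_le (μ := ν) (p := ENNReal.ofReal (dx p)) (f := H)
        (g := fun x => Hs j x - H x) hH.1 ((hHs j).1.sub hH.1) (one_le_ofReal hq)
      refine le_trans (le_of_eq ?_) h2
      congr 1
      funext x
      simp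
    have h3 := ENNReal.toReal_mono (ENNReal.add_ne_top.2 ⟨hH.2.ne, ((hHs j).sub hH).2.ne⟩) h1
    rw [ENNReal.toReal_add hH.2.ne ((hHs j).sub hH).2.ne] at h3
    exact h3.trans (add_le_add le_rfl (hC j))
  set A2 : ℝ := (α ^ dx p)⁻¹ * A1 ^ dx p with hA2
  have hgr : ∀ W : E n → E n, MemLp W (ENNReal.ofReal p) volume →
      ∫ x, ‖a x (W x)‖ ^ dx p ≤ A1 ^ dx p → (eLpNorm W (ENNReal.ofReal p) volume).toReal ≤
        A2 ^ (1 / p) := by
    intro W hW h
    rw [← H86.toReal_eLpNorm' hp hW]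
    refine Real.rpow_le_rpow (integral_nonneg fun x => by positivity) ?_ (by positivity)
    have h1 : ∫ x, α ^ dx p * ‖W x‖ ^ p ≤ ∫ x, ‖a x (W x)‖ ^ dx p := by
      refine integral_mono ((H86.integrable_rpow hp hW).const_mul _)
        (H86.integrable_rpow hq (memLp_a hop hW)) fun x => rpow_a_bound hop x (W x)
    rw [integral_const_mul] at h1
    have h2 : 0 < α ^ dx p := by positivity
    rw [hA2, ← div_eq_inv_mul, le_div_iff₀ h2, mul_comm]
    exact h1.trans h
  set A3 : ℝ := A2 ^ (1 / p) + A2 ^ (1 / p) with hA3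
  have hV : ∀ j, (eLpNorm (fun x => Us j x - U x) (ENNReal.ofReal p) volume).toReal ≤ A3 := by
    intro j
    have h1 := eLpNorm_sub_le (μ := volume) (p := ENNReal.ofReal p) (f := Us j) (g := U)
      (hUs j).1 hU.1 (one_le_ofReal hp)
    have h2 := ENNReal.toReal_mono (ENNReal.add_ne_top.2 ⟨(hUs j).2.ne, hU.2.ne⟩) h1
    rw [ENNReal.toReal_add (hUs j).2.ne hU.2.ne] at h2
    exact h2.trans (add_le_add (hgr _ (hUs j) (hbdUs j)) (hgr _ hU hbdU))
  have hA30 : 0 ≤ A3 := ENNReal.toReal_nonneg.trans (hV 0)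
  -- the energy of the difference
  set g : ℕ → E n → ℝ := fun j x => ⟪a x (Us j x) - a x (U x), Us j x - U x⟫ with hg
  have hg0 : ∀ j x, 0 ≤ g j x := by
    intro j x
    by_cases h : Us j x = U x
    · simp [hg, h]
    · exact (hop.mono x _ _ h).le
  have haUs := fun j => memLp_a hop (hUs j)
  have haU := memLp_a hop hU
  have hVm : ∀ j, MemLp (fun x => Us j x - U x) (ENNReal.ofReal p) volume := fun j =>
    (hUs j).sub hU
  have hgi : ∀ j, Integrable (g j) := fun j =>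
    (pairing hp ((haUs j).sub haU) (hVm j)).2.1
  have hgle : ∀ j, ∫ x, g j x ≤ b j * A3 := by
    intro j
    have h0 := h0_sub hp (hsols j).h0 hsol.h0
    have e1 := (hsols j).eqn _ _ h0
    have e2 := hsol.eqn _ _ h0
    have e3 : ∫ x, g j x =
        (∫ x, ⟪a x (Us j x), Us j x - U x⟫) - ∫ x, ⟪a x (U x), Us j x - U x⟫ := by
      rw [← integral_sub (pairing hp (haUs j) (hVm j)).2.1 (pairing hp haU (hVm j)).2.1]
      refine integral_congr_ae (Eventually.of_forall fun x => ?_)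
      exact inner_sub_left _ _ _
    have hz := (H0.ae_eq_zero hp measurableSet_ball h0).2
    have hz' := (ae_restrict_iff' measurableSet_ball.compl).1 hz
    have hres : ∀ K : E n → E n, ∫ x, ⟪K x, Us j x - U x⟫ = ∫ x, ⟪K x, Us j x - U x⟫ ∂ν := by
      intro K
      symm
      refine setIntegral_eq_integral_of_ae_compl_eq_zero ?_
      filter_upwards [hz'] with x hx hxb
      rw [hx hxb, inner_zero_right]
    have hVν : MemLp (fun x => Us j x - U x) (ENNReal.ofReal p) ν := (hVm j).mono_measure hνle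
    rw [e3, e1, e2, hres, hres, ← integral_sub (pairing hp (hHs j) hVν).2.1
      (pairing hp hH hVν).2.1]
    have e4 : ∫ x, (⟪Hs j x, Us j x - U x⟫ - ⟪H x, Us j x - U x⟫) ∂ν ≤
        ∫ x, ‖Hs j x - H x‖ * ‖Us j x - U x‖ ∂ν := by
      refine integral_mono ((pairing hp (hHs j) hVν).2.1.sub (pairing hp hH hVν).2.1)
        (pairing hp ((hHs j).sub hH) hVν).1 fun x => ?_
      show ⟪Hs j x, Us j x - U x⟫ - ⟪H x, Us j x - U x⟫ ≤ ‖Hs j x - H x‖ * ‖Us j x - U x‖
      rw [← inner_sub_left]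
      exact real_inner_le_norm _ _
    refine e4.trans ((pairing hp ((hHs j).sub hH) hVν).2.2.trans ?_)
    refine mul_le_mul le_rfl (le_trans ?_ (hV j)) ENNReal.toReal_nonneg ENNReal.toReal_nonneg
    exact ENNReal.toReal_mono (hVm j).2.ne (eLpNorm_mono_measure _ hνle)
  have hglim : Tendsto (fun j => ∫ x, g j x) atTop (𝓝 0) := by
    refine squeeze_zero (fun j => integral_nonneg (hg0 j)) hgle ?_
    simpa using hb0.mul_const A3
  -- subsequences
  refine tendsto_of_subseq_tendsto fun ns hns => ?_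
  have h1 : Tendsto (fun k => eLpNorm (fun x => g (ns k) x - 0) 1 volume) atTop (𝓝 0) := by
    have h2 := (ENNReal.continuous_ofReal.tendsto 0).comp (hglim.comp hns)
    rw [ENNReal.ofReal_zero] at h2
    refine h2.congr fun k => ?_
    simp only [sub_zero, eLpNorm_one_eq_lintegral_enorm, Function.comp_apply]
    rw [ofReal_integral_eq_lintegral_ofReal (hgi _) (Eventually.of_forall (hg0 _))]
    refine lintegral_congr fun x => ?_
    rw [Real.enorm_of_nonneg (hg0 _ x)]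
  obtain ⟨ms, hms, hae⟩ := (tendstoInMeasure_of_tendsto_eLpNorm one_ne_zero
    (fun k => (hgi (ns k)).1) (aestronglyMeasurable_const) h1).exists_seq_tendsto_ae
  refine ⟨ms, ?_⟩
  have haeU : ∀ᵐ x, Tendsto (fun k => Us (ns (ms k)) x) atTop (𝓝 (U x)) := by
    filter_upwards [hae] with x hx
    rw [Metric.tendsto_atTop]
    intro ε hε
    obtain ⟨δ, hδ, hδ'⟩ := hM n p (a x) ‖U x‖ ε (frz_of_op hop x) hε
    obtain ⟨N, hN⟩ := (Metric.tendsto_atTop.1 hx) δ hδ
    refine ⟨N, fun k hk => ?_⟩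
    by_contra hcon
    push Not at hcon
    rw [dist_eq_norm] at hcon
    have h3 := hδ' (U x) (Us (ns (ms k)) x) le_rfl hcon
    have h4 := hN k hk
    rw [Real.dist_eq, sub_zero] at h4
    exact absurd (h3.trans_lt (lt_of_le_of_lt (le_abs_self _) h4)) (lt_irrefl _)
  have hF : ∀ k, MemLp (fun x => a x (Us (ns (ms k)) x) - a x (U x)) (ENNReal.ofReal (dx p))
      volume := fun k => (haUs _).sub haU
  have hw := weak_tendsto hp (F := fun k x => a x (Us (ns (ms k)) x) - a x (U x))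
    (M := 2 ^ dx p * (A1 ^ dx p + A1 ^ dx p)) hF (fun k => ?_) hY ?_
  · have h5 : Tendsto (fun k => (∫ x, ⟪a x (Us (ns (ms k)) x), Y x⟫) - ∫ x, ⟪a x (U x), Y x⟫)
        atTop (𝓝 0) := by
      refine squeeze_zero_norm (fun k => ?_) hw
      rw [← integral_sub (pairing hp (haUs _) hY).2.1 (pairing hp haU hY).2.1]
      refine (norm_integral_le_integral_norm _).trans (integral_mono_of_nonneg
        (Eventually.of_forall fun x => norm_nonneg _) (pairing hp (hF k) hY).1
        (Eventually.of_forall fun x => ?_))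
      show ‖⟪a x (Us (ns (ms k)) x), Y x⟫ - ⟪a x (U x), Y x⟫‖ ≤ _
      rw [← inner_sub_left]
      exact norm_inner_le_norm (𝕜 := ℝ) _ _
    have h6 := h5.add_const (∫ x, ⟪a x (U x), Y x⟫)
    simpa using h6
  · have h7 : ∫ x, ‖a x (Us (ns (ms k)) x) - a x (U x)‖ ^ dx p ≤
        ∫ x, 2 ^ dx p * (‖a x (Us (ns (ms k)) x)‖ ^ dx p + ‖a x (U x)‖ ^ dx p) := by
      refine integral_mono (H86.integrable_rpow hq (hF k))
        (((H86.integrable_rpow hq (haUs _)).add (H86.integrable_rpow hq haU)).const_mul _)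
        fun x => ?_
      refine (Real.rpow_le_rpow (norm_nonneg _) (norm_sub_le _ _) (by linarith)).trans ?_
      exact add_rpow_le (by linarith) (norm_nonneg _) (norm_nonneg _)
    rw [integral_const_mul, integral_add (H86.integrable_rpow hq (haUs _))
      (H86.integrable_rpow hq haU)] at h7
    exact h7.trans (mul_le_mul_of_nonneg_left (add_le_add (hbdUs _) hbdU) (by positivity))
  · filter_upwards [haeU] with x hx
    have h8 := ((hop.cont x).tendsto (U x)).comp hx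
    have h9 := h8.sub_const (a x (U x))
    simpa [Function.comp_def] using h9

end Pool.Agent.Lib.MP_abd978_an.UN.H82
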